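import Mathlib

/-!
# The passage of the critical orbit of `x ^ 2 + 1 / 4 + s ^ 2` near `1 / 2`: the time is `π / s + O(1)`

`Y s n = x_n - 1 / 2` satisfies `Y s (n + 1) = Y s n + (Y s n) ^ 2 + s ^ 2`, and
`arctan (Y s (n + 1) / s) = arctan (Y s n / s) + arctan (s / (1 + Y s n))` exactly.
-/

set_option autoImplicit false

namespace Pool.Agent.X220.CU

open Real Finset

/-- the critical orbit of `x ^ 2 + 1 / 4 + s ^ 2` in the coordinate `x - 1 / 2` -/
noncomputable def Y (s : ℝ) : ℕ → ℝ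
  | 0 => -1 / 2
  | n + 1 => Y s n + Y s n ^ 2 + s ^ 2

theorem Y_zero (s : ℝ) : Y s 0 = -1 / 2 := rfl

theorem Y_succ (s : ℝ) (n : ℕ) : Y s (n + 1) = Y s n + Y s n ^ 2 + s ^ 2 := rfl

theorem Y_mono (s : ℝ) : Monotone (Y s) :=
  monotone_nat_of_le_succ fun n => by
    rw [Y_succ]
    nlinarith [sq_nonneg (Y s n), sq_nonneg s]

theorem Y_ge (s : ℝ) (n : ℕ) : -1 / 2 ≤ Y s n := by
  rw [← Y_zero s]
  exact Y_mono s (Nat.zero_le n)

theorem Y_lin (s : ℝ) (n : ℕ) : -1 / 2 + n * s ^ 2 ≤ Y s n := by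
  induction n with
  | zero => rw [Y_zero]; simp
  | succ n ih =>
    rw [Y_succ]
    push_cast
    nlinarith [sq_nonneg (Y s n)]

theorem arctan_le {u : ℝ} (hu : 0 ≤ u) : arctan u ≤ u := by
  have h := Real.le_tan (arctan_nonneg.2 hu) (arctan_lt_pi_div_two u)
  rwa [tan_arctan] at h

theorem arctan_ge {u : ℝ} (hu : 0 ≤ u) : u - u ^ 3 ≤ arctan u := by
  have hder : ∀ x : ℝ, HasDerivAt (fun x => arctan x - x + x ^ 3) (1 / (1 + x ^ 2) - 1 + 3 * x ^ 2) x := by
    intro x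
    have h := ((hasDerivAt_arctan x).sub (hasDerivAt_id' x)).add (hasDerivAt_pow 3 x)
    exact HasDerivAt.congr_deriv (f := fun x => arctan x - x + x ^ 3) h (by norm_num)
  have h : MonotoneOn (fun x => arctan x - x + x ^ 3) (Set.Ici 0) := by
    apply monotoneOn_of_deriv_nonneg (convex_Ici 0)
    · exact fun x _ => (hder x).continuousAt.continuousWithinAt
    · exact fun x _ => (hder x).differentiableAt.differentiableWithinAt
    · intro x _
      rw [(hder x).deriv]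
      have h1 : 1 - x ^ 2 ≤ 1 / (1 + x ^ 2) := by
        rw [le_div_iff₀ (by positivity)]
        nlinarith [sq_nonneg (x ^ 2)]
      nlinarith [sq_nonneg x]
  have h2 := h (Set.mem_Ici.2 le_rfl) (Set.mem_Ici.2 hu) hu
  simp only [arctan_zero] at h2
  linarith

theorem arctan_step {s : ℝ} (hs : 0 < s) (n : ℕ) :
    arctan (Y s (n + 1) / s) = arctan (Y s n / s) + arctan (s / (1 + Y s n)) := by
  have h1 : 0 < 1 + Y s n := by linarith [Y_ge s n]
  have h2 : Y s n / s * (s / (1 + Y s n)) = Y s n / (1 + Y s n) := by field_simp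
  rw [arctan_add]
  · congr 1
    rw [h2, Y_succ]
    have h3 : 1 - Y s n / (1 + Y s n) = 1 / (1 + Y s n) := by
      field_simp
      ring
    rw [h3]
    field_simp
  · rw [h2, div_lt_one h1]
    linarith

theorem arctan_sum {s : ℝ} (hs : 0 < s) (n : ℕ) :
    ∑ k ∈ range n, arctan (s / (1 + Y s k)) = arctan (Y s n / s) + arctan (1 / (2 * s)) := by
  induction n with
  | zero =>
    rw [range_zero, sum_empty, Y_zero, show -1 / 2 / s = -(1 / (2 * s)) by field_simp, arctan_neg]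
    ring
  | succ n ih =>
    rw [sum_range_succ, ih, arctan_step hs]
    ring

/-- `log q (n + 1) = log q n + log ((1 + y)² + s²)` for `q = y² + s²` -/
theorem q_succ (s : ℝ) (n : ℕ) : Y s (n + 1) ^ 2 + s ^ 2 =
    (Y s n ^ 2 + s ^ 2) * ((1 + Y s n) ^ 2 + s ^ 2) := by
  rw [Y_succ]
  ring

theorem log_sum {s : ℝ} (hs : 0 < s) (n : ℕ) :
    ∑ k ∈ range n, log ((1 + Y s k) ^ 2 + s ^ 2) =
      log (Y s n ^ 2 + s ^ 2) - log (Y s 0 ^ 2 + s ^ 2) := by
  induction n with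
  | zero => simp
  | succ n ih =>
    rw [sum_range_succ, ih, q_succ, log_mul (by positivity) (by positivity)]
    ring

theorem term_upper {s y : ℝ} (hy : -1 / 2 ≤ y) : y / (1 + y) ≤ log ((1 + y) ^ 2 + s ^ 2) / 2 := by
  have h1 : 0 < 1 + y := by linarith
  have h2 : 1 - (1 + y)⁻¹ ≤ log (1 + y) := one_sub_inv_le_log_of_pos h1
  have h3 : y / (1 + y) = 1 - (1 + y)⁻¹ := by
    field_simp
    ring
  have h4 : log ((1 + y) ^ 2) ≤ log ((1 + y) ^ 2 + s ^ 2) :=
    log_le_log (by positivity) (by nlinarith [sq_nonneg s])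
  rw [log_pow] at h4
  push_cast at h4
  linarith

theorem term_lower {s y : ℝ} (hy : -1 / 2 ≤ y) :
    log ((1 + y) ^ 2 + s ^ 2) / 2 - 2 * (y ^ 2 + s ^ 2) ≤ y / (1 + y) := by
  have h1 : 0 < 1 + y := by linarith
  have h2 : log (1 + y) ≤ y := by
    have := log_le_sub_one_of_pos h1
    linarith
  have h3 : log ((1 + y) ^ 2 + s ^ 2) = 2 * log (1 + y) + log (1 + s ^ 2 / (1 + y) ^ 2) := by
    rw [show (1 + y) ^ 2 + s ^ 2 = (1 + y) ^ 2 * (1 + s ^ 2 / (1 + y) ^ 2) by field_simp,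
      log_mul (by positivity) (by positivity), log_pow]
    push_cast
    ring
  have h4 : log (1 + s ^ 2 / (1 + y) ^ 2) ≤ s ^ 2 / (1 + y) ^ 2 := by
    have := log_le_sub_one_of_pos (show 0 < 1 + s ^ 2 / (1 + y) ^ 2 by positivity)
    linarith
  have h5 : s ^ 2 / (1 + y) ^ 2 ≤ 4 * s ^ 2 := by
    rw [div_le_iff₀ (by positivity)]
    have : 1 / 4 ≤ (1 + y) ^ 2 := by nlinarith
    nlinarith [sq_nonneg s]
  have h6 : y - 2 * y ^ 2 ≤ y / (1 + y) := by
    rw [le_div_iff₀ h1]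
    nlinarith [sq_nonneg y, mul_nonneg (sq_nonneg y) (show 0 ≤ 1 + 2 * y by linarith)]
  rw [h3]
  linarith

/-- the time of the passage, small `s` -/
theorem passage_small {s : ℝ} (hs : 0 < s) (hs4 : s ≤ 1 / 4) {m : ℕ} (h1 : Y s m ≤ 6)
    (h2 : 3 / 2 < Y s m) : |(m : ℝ) - π / s| ≤ 16 := by
  have hpi := pi_pos
  have hpi2 : π < 3.15 := pi_lt_d2
  obtain ⟨S₁, hS₁⟩ : ∃ S₁, S₁ = ∑ k ∈ range m, s / (1 + Y s k) := ⟨_, rfl⟩
  obtain ⟨S₂, hS₂⟩ : ∃ S₂, S₂ = ∑ k ∈ range m, Y s k / (1 + Y s k) := ⟨_, rfl⟩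
  have hpos : ∀ k, 0 < 1 + Y s k := fun k => by linarith [Y_ge s k]
  have hu0 : ∀ k, 0 ≤ s / (1 + Y s k) := fun k => (div_pos hs (hpos k)).le
  have hu1 : ∀ k, s / (1 + Y s k) ≤ 2 * s := fun k => by
    rw [div_le_iff₀ (hpos k)]
    nlinarith [Y_ge s k]
  have hm : (m : ℝ) = S₁ / s + S₂ := by
    have h3 : ∀ k ∈ range m, (1 : ℝ) = s / (1 + Y s k) / s + Y s k / (1 + Y s k) := by
      intro k _
      have := hpos k
      field_simp
    have h4 := sum_congr rfl h3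
    rw [sum_const, card_range, nsmul_eq_mul, mul_one, sum_add_distrib, ← sum_div] at h4
    rw [h4, hS₁, hS₂]
  -- the first sum
  have hA := arctan_sum hs m
  have hA2 : ∑ k ∈ range m, arctan (s / (1 + Y s k)) ≤ π := by
    rw [hA]
    linarith [arctan_lt_pi_div_two (Y s m / s), arctan_lt_pi_div_two (1 / (2 * s))]
  have hA3 : π - 3 * s ≤ ∑ k ∈ range m, arctan (s / (1 + Y s k)) := by
    rw [hA]
    have hY : 0 < Y s m := by linarith
    have e1 : arctan (Y s m / s) = π / 2 - arctan (s / Y s m) := by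
      rw [← arctan_inv_of_pos (by positivity), inv_div]
    have e2 : arctan (1 / (2 * s)) = π / 2 - arctan (2 * s) := by
      rw [one_div, arctan_inv_of_pos (by positivity)]
    have e3 : arctan (s / Y s m) ≤ s / Y s m := arctan_le (by positivity)
    have e4 : arctan (2 * s) ≤ 2 * s := arctan_le (by positivity)
    have e5 : s / Y s m ≤ s := by
      rw [div_le_iff₀ hY]
      nlinarith
    rw [e1, e2]
    linarith
  have hB1 : ∑ k ∈ range m, arctan (s / (1 + Y s k)) ≤ S₁ := by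
    rw [hS₁]
    exact sum_le_sum fun k _ => arctan_le (hu0 k)
  have hB2 : (1 - 4 * s ^ 2) * S₁ ≤ ∑ k ∈ range m, arctan (s / (1 + Y s k)) := by
    rw [hS₁, mul_sum]
    refine sum_le_sum fun k _ => le_trans ?_ (arctan_ge (hu0 k))
    have h3 : (s / (1 + Y s k)) ^ 2 ≤ (2 * s) ^ 2 := pow_le_pow_left₀ (hu0 k) (hu1 k) 2
    nlinarith [hu0 k]
  have hS₁0 : 0 ≤ S₁ := by
    rw [hS₁]
    exact sum_nonneg fun k _ => hu0 k
  have hs2 : 4 * s ^ 2 ≤ s := by nlinarith
  have hS₁4 : S₁ ≤ 5 := by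
    nlinarith
  have hS₁up : S₁ ≤ π + 5 * s := by nlinarith
  have hS₁lo : π - 3 * s ≤ S₁ := hA3.trans hB1
  -- the second sum
  have hlog := log_sum hs m
  have hC1 : S₂ ≤ (∑ k ∈ range m, log ((1 + Y s k) ^ 2 + s ^ 2)) / 2 := by
    rw [hS₂, sum_div]
    exact sum_le_sum fun k _ => term_upper (Y_ge s k)
  have hC2 : (∑ k ∈ range m, log ((1 + Y s k) ^ 2 + s ^ 2)) / 2 - 2 * (Y s m - Y s 0) ≤ S₂ := by
    have h3 : Y s m - Y s 0 = ∑ k ∈ range m, (Y s k ^ 2 + s ^ 2) := by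
      rw [← sum_range_sub]
      exact sum_congr rfl fun k _ => by rw [Y_succ]; ring
    rw [h3, hS₂, sum_div, mul_sum, ← sum_sub_distrib]
    exact sum_le_sum fun k _ => term_lower (Y_ge s k)
  rw [hlog] at hC1 hC2
  have hY0 := Y_zero s
  have hq0 : 0 ≤ log (Y s m ^ 2 + s ^ 2) - log (Y s 0 ^ 2 + s ^ 2) := by
    rw [sub_nonneg]
    apply log_le_log (by positivity)
    rw [hY0]
    nlinarith
  have hq : log (Y s m ^ 2 + s ^ 2) - log (Y s 0 ^ 2 + s ^ 2) ≤ 6 := by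
    have e1 : Y s m ^ 2 + s ^ 2 ≤ (Y s 0 ^ 2 + s ^ 2) * 2 ^ 8 := by
      rw [hY0]
      nlinarith
    have e2 := log_le_log (by positivity) e1
    rw [log_mul (by positivity) (by positivity), log_pow] at e2
    push_cast at e2
    linarith [log_two_lt_d9]
  have hup : (m : ℝ) - π / s ≤ 16 := by
    have e1 : S₁ / s ≤ π / s + 5 := by
      rw [div_add' _ _ _ hs.ne', div_le_div_iff_of_pos_right hs]
      linarith
    linarith
  have hlo : -16 ≤ (m : ℝ) - π / s := by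
    have e1 : π / s - 3 ≤ S₁ / s := by
      rw [div_sub' hs.ne', div_le_div_iff_of_pos_right hs]
      linarith
    linarith
  exact abs_le.2 ⟨hlo, hup⟩

/-- the time of the passage, large `s` -/
theorem passage_large {s : ℝ} (hs : 1 / 4 ≤ s) {m : ℕ} (h : ∀ k < m, Y s k ≤ 3 / 2) :
    (m : ℝ) ≤ 33 := by
  rcases Nat.eq_zero_or_pos m with rfl | hm
  · norm_num
  obtain ⟨n, rfl⟩ := Nat.exists_eq_add_of_le' hm
  have h1 := h n (Nat.lt_succ_self n)
  have h2 := Y_lin s n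
  have h3 : (1 / 16 : ℝ) ≤ s ^ 2 := by nlinarith
  have h4 : (n : ℝ) * (1 / 16) ≤ n * s ^ 2 := mul_le_mul_of_nonneg_left h3 (Nat.cast_nonneg n)
  push_cast
  linarith

/-- there is a passage -/
theorem exists_passage {s : ℝ} (hs : 0 < s) :
    ∃ m : ℕ, 1 ≤ m ∧ (∀ k < m, Y s k ≤ 3 / 2) ∧ 3 / 2 < Y s m := by
  classical
  have hex : ∃ m, 3 / 2 < Y s m := by
    obtain ⟨n, hn⟩ := exists_nat_gt (3 / s ^ 2)
    refine ⟨n, ?_⟩
    rw [div_lt_iff₀ (by positivity)] at hn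
    linarith [Y_lin s n]
  refine ⟨Nat.find hex, ?_, fun k hk => not_lt.1 (Nat.find_min hex hk), Nat.find_spec hex⟩
  rw [Nat.one_le_iff_ne_zero]
  intro h0
  have := Nat.find_spec hex
  rw [h0, Y_zero] at this
  norm_num at this

/-- **the time of the passage**, upper bound for all `s` -/
theorem passage_upper {s : ℝ} (hs : 0 < s) {m : ℕ} (hm : 1 ≤ m) (h : ∀ k < m, Y s k ≤ 3 / 2)
    (h2 : 3 / 2 < Y s m) : (m : ℝ) ≤ π / s + 33 := by
  rcases le_total s (1 / 4) with h4 | h4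
  · obtain ⟨n, rfl⟩ := Nat.exists_eq_add_of_le' hm
    have h6 : Y s (n + 1) ≤ 6 := by
      have := h n (Nat.lt_succ_self n)
      have := Y_ge s n
      rw [Y_succ]
      nlinarith
    have := abs_le.1 (passage_small hs h4 h6 h2)
    linarith
  · have := passage_large h4 h
    have : 0 ≤ π / s := by positivity
    linarith

/-- **the time of the passage**, lower bound for all `s` -/
theorem passage_lower {s : ℝ} (hs : 0 < s) {m : ℕ} (hm : 1 ≤ m) (h : ∀ k < m, Y s k ≤ 3 / 2)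
    (h2 : 3 / 2 < Y s m) : π / s ≤ m + 16 := by
  rcases le_total s (1 / 4) with h4 | h4
  · obtain ⟨n, rfl⟩ := Nat.exists_eq_add_of_le' hm
    have h6 : Y s (n + 1) ≤ 6 := by
      have := h n (Nat.lt_succ_self n)
      have := Y_ge s n
      rw [Y_succ]
      nlinarith
    have := abs_le.1 (passage_small hs h4 h6 h2)
    linarith
  · have hpi2 : π < 3.15 := pi_lt_d2
    have h5 : π / s ≤ 13 := by
      rw [div_le_iff₀ hs]
      linarith
    have : (0 : ℝ) ≤ m := Nat.cast_nonneg m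
    linarith

end Pool.Agent.X220.CU
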